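import Pool.Agent.H27.G.R_seed8.H932R4.MO.Stmts

set_option autoImplicit false

open Finset Filter Topology

namespace Pool.Agent.H932R4.MO

theorem t5 (ha : T5a) (hb : T5b) (hBT : BT3) (h3 : T3) : T5 := by
  classical
  intro θ κ hθ0 hθ1 hκ
  obtain ⟨N₁, hN₁, hN⟩ := ha hBT h3 θ (κ / 2) hθ0 hθ1 (by positivity)
  refine ⟨N₁, hN₁, fun N₀ hN₀ => ?_⟩
  obtain ⟨X₁, hX₁, hX⟩ := hN N₀ hN₀
  obtain ⟨X₂, hX₂, hX'⟩ := hb θ (κ / 2) hθ0 hθ1 (by positivity) N₀ (hN₁.trans hN₀)
  refine ⟨max X₁ X₂, le_max_of_le_left hX₁, fun X Y hXX hXY hYX => ?_⟩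
  have hXX1 : X₁ ≤ X := (le_max_left _ _).trans hXX
  have hXX2 : X₂ ≤ X := (le_max_right _ _).trans hXX
  have h1 := hX X Y hXX1 hXY hYX
  set A := (Ioc X (X + Y)).filter (fun n : ℕ => ¬ n.Prime) with hA
  have hlog : 0 < Real.log X := Real.log_pos (by
    have : (3 : ℝ) ≤ X := by exact_mod_cast hX₁.trans hXX1
    linarith)
  rw [← Finset.sum_filter_add_sum_filter_not A
    (fun n : ℕ => ∃ q ∈ n.primeFactors, (n : ℝ) / (q : ℝ) ≤ (X : ℝ) ^ (θ / 2))]
  have e1 : A.filter (fun n : ℕ => ∃ q ∈ n.primeFactors, (n : ℝ) / (q : ℝ) ≤ (X : ℝ) ^ (θ / 2)) =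
      (Ioc X (X + Y)).filter (fun n : ℕ => ¬ n.Prime ∧
      ∃ q ∈ n.primeFactors, (n : ℝ) / (q : ℝ) ≤ (X : ℝ) ^ (θ / 2)) := by
    rw [hA, Finset.filter_filter]
  have h2 : ∑ n ∈ A.filter (fun n : ℕ => ¬ ∃ q ∈ n.primeFactors,
      (n : ℝ) / (q : ℝ) ≤ (X : ℝ) ^ (θ / 2)), bw N₀ n ≤ κ / 2 * Y / (Real.log X) ^ 3 := by
    calc _ ≤ ∑ n ∈ A.filter (fun n : ℕ => ¬ ∃ q ∈ n.primeFactors,
        (n : ℝ) / (q : ℝ) ≤ (X : ℝ) ^ (θ / 2)), κ / 2 / (Real.log X) ^ 3 := by
          apply Finset.sum_le_sum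
          intro n hn
          rw [Finset.mem_filter, hA, Finset.mem_filter, Finset.mem_Ioc] at hn
          obtain ⟨⟨⟨hn1, hn2⟩, -⟩, hn3⟩ := hn
          push Not at hn3
          exact hX' X n hXX2 hn1 (by omega) hn3
      _ = ((A.filter (fun n : ℕ => ¬ ∃ q ∈ n.primeFactors,
        (n : ℝ) / (q : ℝ) ≤ (X : ℝ) ^ (θ / 2))).card : ℝ) * (κ / 2 / (Real.log X) ^ 3) := by
          rw [Finset.sum_const, nsmul_eq_mul]
      _ ≤ (Y : ℝ) * (κ / 2 / (Real.log X) ^ 3) := by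
          apply mul_le_mul_of_nonneg_right _ (by positivity)
          have : (A.filter (fun n : ℕ => ¬ ∃ q ∈ n.primeFactors,
            (n : ℝ) / (q : ℝ) ≤ (X : ℝ) ^ (θ / 2))).card ≤ (Ioc X (X + Y)).card := by
            apply Finset.card_le_card
            exact (Finset.filter_subset _ _).trans (Finset.filter_subset _ _)
          rw [Nat.card_Ioc] at this
          have h3 : X + Y - X = Y := by omega
          rw [h3] at this
          exact_mod_cast this
      _ = _ := by ring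
  have h3 : κ * Y / (Real.log X) ^ 3 = κ / 2 * Y / (Real.log X) ^ 3 + κ / 2 * Y / (Real.log X) ^ 3 := by
    ring
  rw [h3, e1]
  exact add_le_add h1 h2

/-- multiplicativity -/
theorem greedy_mul {ε : ℝ} {N₀ : ℕ} {f : ℕ → ℝ} (hf : IsGreedy ε N₀ f) (m n : ℕ)
    (hmn : Nat.Coprime m n) : f (m * n) = f m * f n := by
  by_cases hm : Squarefree m
  · by_cases hn : Squarefree n
    · rw [hf.sq (m * n) ((Nat.squarefree_mul hmn).2 ⟨hm, hn⟩), hf.sq m hm, hf.sq n hn,
        Nat.Coprime.primeFactors_mul hmn, Finset.prod_union hmn.disjoint_primeFactors]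
    · rw [hf.nsq n hn, hf.nsq (m * n) (fun h => hn (h.of_mul_right)), mul_zero]
  · rw [hf.nsq m hm, hf.nsq (m * n) (fun h => hm (h.of_mul_left)), zero_mul]

/-- values on prime powers -/
theorem greedy_pow {ε : ℝ} {N₀ : ℕ} {f : ℕ → ℝ} (hf : IsGreedy ε N₀ f) (p k : ℕ) (hp : p.Prime)
    (hk : 2 ≤ k) : f (p ^ k) = 0 := by
  apply hf.nsq
  intro h
  have : p * p ∣ p ^ k := by
    rw [← pow_two]
    exact pow_dvd_pow p hk
  have h2 := h p this
  exact hp.one_lt.ne' (Nat.isUnit_iff.1 h2)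

open Classical in
/-- counting the primes followed by a long gap -/
theorem gapCount (X g : ℕ) :
    ((Ioc X (2 * X)).filter (fun p : ℕ => p.Prime ∧ ∀ q : ℕ, q.Prime → p < q → p + g < q)).card ≤
      X / (g + 1) + 1 := by
  set A := (Ioc X (2 * X)).filter (fun p : ℕ => p.Prime ∧ ∀ q : ℕ, q.Prime → p < q → p + g < q)
  have hinj : Set.InjOn (fun p : ℕ => (p - X - 1) / (g + 1)) (A : Set ℕ) := by
    intro p hp q hq hpq
    simp only [A, Finset.coe_filter, Set.mem_ofPred_eq, Finset.mem_Ioc] at hp hq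
    have hpq' : (p - X - 1) / (g + 1) = (q - X - 1) / (g + 1) := hpq
    by_contra hne
    have h1 := Nat.div_add_mod (p - X - 1) (g + 1)
    have h2 := Nat.div_add_mod (q - X - 1) (g + 1)
    have h3 := Nat.mod_lt (p - X - 1) (Nat.succ_pos g)
    have h4 := Nat.mod_lt (q - X - 1) (Nat.succ_pos g)
    rw [hpq'] at h1
    rcases lt_or_gt_of_ne hne with h | h
    · have := hp.2.2 q hq.2.1 h
      simp only [Nat.succ_eq_add_one] at h3 h4
      omega
    · have := hq.2.2 p hp.2.1 h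
      simp only [Nat.succ_eq_add_one] at h3 h4
      omega
  have hmaps : ∀ p ∈ A, (fun p : ℕ => (p - X - 1) / (g + 1)) p ∈ range (X / (g + 1) + 1) := by
    intro p hp
    simp only [A, Finset.mem_filter, Finset.mem_Ioc] at hp
    rw [Finset.mem_range]
    have : (p - X - 1) / (g + 1) ≤ X / (g + 1) := Nat.div_le_div_right (by omega)
    show (p - X - 1) / (g + 1) < X / (g + 1) + 1
    omega
  calc A.card = (A.image (fun p : ℕ => (p - X - 1) / (g + 1))).card :=
        (Finset.card_image_of_injOn hinj).symm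
    _ ≤ (range (X / (g + 1) + 1)).card := by
        apply Finset.card_le_card
        intro y hy
        rw [Finset.mem_image] at hy
        obtain ⟨p, hp, rfl⟩ := hy
        exact hmaps p hp
    _ = X / (g + 1) + 1 := Finset.card_range _

end Pool.Agent.H932R4.MO
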