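import Pool.Agent.H27.G.R_seed8.H932R4.MO.Asm1

set_option autoImplicit false

open Finset Filter Topology

namespace Pool.Agent.H932R4.MO

theorem S_eq (f : ℕ → ℝ) (h0 : f 0 = 0) (n : ℕ) : S f n = ∑ k ∈ Icc 1 n, f k := by
  unfold S
  have : range (n + 1) = insert 0 (Icc 1 n) := by
    ext k
    simp only [Finset.mem_range, Finset.mem_insert, Finset.mem_Icc]
    omega
  rw [this, Finset.sum_insert (by simp), h0, zero_add]

/-- difference of partial sums -/
theorem S_diff (f : ℕ → ℝ) (m n : ℕ) (h : m ≤ n) : S f n = S f m + ∑ k ∈ Ioc m n, f k := by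
  unfold S
  have : range (n + 1) = range (m + 1) ∪ Ioc m n := by
    ext k
    simp only [Finset.mem_range, Finset.mem_union, Finset.mem_Ioc]
    omega
  rw [this, Finset.sum_union]
  rw [Finset.disjoint_left]
  intro k hk hk'
  simp only [Finset.mem_range, Finset.mem_Ioc] at hk hk'
  omega

/-- eventual inequality: `2 x^a ≤ x^b` -/
theorem ev_rpow (C a b : ℝ) (hab : a < b) : ∃ x₀ : ℝ, 1 ≤ x₀ ∧ ∀ x : ℝ, x₀ ≤ x → C * x ^ a ≤ x ^ b := by
  have h := (tendsto_rpow_atTop (sub_pos.2 hab)).eventually_ge_atTop C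
  rw [eventually_atTop] at h
  obtain ⟨x₀, hx₀⟩ := h
  refine ⟨max 1 x₀, le_max_left _ _, fun x hx => ?_⟩
  have hx1 : 1 ≤ x := (le_max_left _ _).trans hx
  have hpos : 0 < x := by linarith
  have h2 := hx₀ x ((le_max_right _ _).trans hx)
  calc C * x ^ a ≤ x ^ (b - a) * x ^ a := by
        apply mul_le_mul_of_nonneg_right h2 (Real.rpow_nonneg hpos.le _)
    _ = x ^ b := by rw [← Real.rpow_add hpos]; ring_nf

/-- eventual inequality: `C x^a + D ≤ d x / log x` for `a < 1` -/
theorem ev_log (C a d : ℝ) (ha : a < 1) (hd : 0 < d) : ∃ x₀ : ℝ, 3 ≤ x₀ ∧ ∀ x : ℝ, x₀ ≤ x →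
    C * x ^ a ≤ d * x / Real.log x := by
  by_cases hC : C ≤ 0
  · refine ⟨3, le_refl _, fun x hx => ?_⟩
    have h1 : 0 < Real.log x := Real.log_pos (by linarith)
    have h2 : 0 ≤ x ^ a := Real.rpow_nonneg (by linarith) _
    have h3 : 0 ≤ d * x / Real.log x := by
      have : 0 < x := by linarith
      positivity
    nlinarith
  push Not at hC
  have h := (isLittleO_log_rpow_atTop (sub_pos.2 ha)).bound (show (0 : ℝ) < d / C by positivity)
  rw [eventually_atTop] at h
  obtain ⟨x₀, hx₀⟩ := h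
  refine ⟨max 3 x₀, le_max_left _ _, fun x hx => ?_⟩
  have hx3 : 3 ≤ x := (le_max_left _ _).trans hx
  have hpos : 0 < x := by linarith
  have hlog : 0 < Real.log x := Real.log_pos (by linarith)
  have h2 := hx₀ x ((le_max_right _ _).trans hx)
  rw [Real.norm_of_nonneg hlog.le, Real.norm_of_nonneg (Real.rpow_nonneg hpos.le _)] at h2
  rw [le_div_iff₀ hlog]
  calc C * x ^ a * Real.log x ≤ C * x ^ a * (d / C * x ^ (1 - a)) := by
        apply mul_le_mul_of_nonneg_left h2
        have := Real.rpow_nonneg hpos.le a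
        positivity
    _ = d * (x ^ a * x ^ (1 - a)) := by field_simp
    _ = d * x := by rw [← Real.rpow_add hpos]; norm_num

/-- halving the argument -/
theorem half_rpow (x y a : ℝ) (hx : 0 < x) (hy : x / 2 ≤ y) (ha0 : a ≤ 0) (ha : -1 ≤ a) :
    y ^ a ≤ 2 * x ^ a := by
  have h2 : 0 < x / 2 := by linarith
  calc y ^ a ≤ (x / 2) ^ a := Real.rpow_le_rpow_of_nonpos h2 hy ha0
    _ = x ^ a * (2 : ℝ) ^ (-a) := by
        rw [Real.div_rpow hx.le (by norm_num), Real.rpow_neg (by norm_num)]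
        rfl
    _ ≤ x ^ a * (2 : ℝ) ^ (1 : ℝ) := by
        apply mul_le_mul_of_nonneg_left _ (Real.rpow_nonneg hx.le _)
        exact Real.rpow_le_rpow_of_exponent_le (by norm_num) (by linarith)
    _ = 2 * x ^ a := by rw [Real.rpow_one]; ring

end Pool.Agent.H932R4.MO
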