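import Mathlib

set_option autoImplicit false

open Finset

namespace Pool.Agent.H932R4.MO

/-- the cap `B(x) = x^(-1+ε) / (log x)^2` -/
noncomputable def Bd (ε : ℝ) (x : ℝ) : ℝ := x ^ (-1 + ε) / (Real.log x) ^ 2

/-- clipping to `[-b, b]` -/
noncomputable def clip (b s : ℝ) : ℝ := max (-b) (min s b)

/-- the clipped greedy multiplicative function: supported on squarefree numbers without prime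
factors `< N₀`; at a prime `p ≥ N₀` it cancels the partial sum as far as the cap allows -/
structure IsGreedy (ε : ℝ) (N₀ : ℕ) (f : ℕ → ℝ) : Prop where
  sq : ∀ n : ℕ, Squarefree n → f n = ∏ p ∈ n.primeFactors, f p
  nsq : ∀ n : ℕ, ¬ Squarefree n → f n = 0
  small : ∀ p : ℕ, p.Prime → p < N₀ → f p = 0
  big : ∀ p : ℕ, p.Prime → N₀ ≤ p → f p = - clip (Bd ε p) (∑ n ∈ range p, f n)

/-- the partial sum -/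
noncomputable def S (f : ℕ → ℝ) (n : ℕ) : ℝ := ∑ k ∈ range (n + 1), f k

open Classical in
/-- the weight `b(n) = ∏_{p | n} (log p)^(-2)` on squarefree `n` with all prime factors `≥ N₀` -/
noncomputable def bw (N₀ : ℕ) (n : ℕ) : ℝ :=
  if Squarefree n ∧ ∀ p ∈ n.primeFactors, N₀ ≤ p then ∏ p ∈ n.primeFactors, 1 / (Real.log p) ^ 2
  else 0

/-- primes in short intervals of length `X^θ` (positive proportion) -/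
def ShortIntervals (θ : ℝ) : Prop := ∃ c : ℝ, 0 < c ∧ ∃ X₀ : ℕ, 2 ≤ X₀ ∧
  ∀ X Y : ℕ, X₀ ≤ X → (X : ℝ) ^ θ ≤ Y → Y ≤ X →
    c * Y / Real.log X ≤ (((Ioc X (X + Y)).filter Nat.Prime).card : ℝ)

/-- Brun-Titchmarsh (in the library: from `Pool.Agent.H469R10.HO.BT2`) -/
def BT3 : Prop := ∃ Y₀ : ℕ, 2 ≤ Y₀ ∧ ∀ A Y : ℕ, Y₀ ≤ Y →
  (((Ioc A (A + Y)).filter Nat.Prime).card : ℝ) ≤ 3 * Y / Real.log Y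

/-- T1: existence of the greedy function -/
def T1 : Prop := ∀ (ε : ℝ) (N₀ : ℕ), ∃ f : ℕ → ℝ, IsGreedy ε N₀ f

/-- T2: pointwise bound -/
def T2 : Prop := ∀ (ε : ℝ) (N₀ : ℕ) (f : ℕ → ℝ), 0 < ε → 3 ≤ N₀ → IsGreedy ε N₀ f →
  (∀ n : ℕ, |f n| ≤ bw N₀ n * (n : ℝ) ^ (-1 + ε)) ∧ (∀ n : ℕ, 0 ≤ bw N₀ n ∧ bw N₀ n ≤ 1)

/-- T3: the tail of the Dirichlet series of the weight is small -/
def T3 : Prop := ∀ τ : ℝ, 0 < τ → ∃ N₁ : ℕ, 3 ≤ N₁ ∧ ∀ N₀ : ℕ, N₁ ≤ N₀ → ∀ M : ℕ,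
  ∑ m ∈ Icc 2 M, bw N₀ m / m ≤ τ

open Classical in
/-- T5a: contribution of the composite `n` with a large prime factor `q`, `n / q ≤ X^(θ/2)` -/
def T5a : Prop := BT3 → T3 → ∀ θ κ : ℝ, 0 < θ → θ < 1 → 0 < κ → ∃ N₁ : ℕ, 3 ≤ N₁ ∧
  ∀ N₀ : ℕ, N₁ ≤ N₀ → ∃ X₁ : ℕ, 3 ≤ X₁ ∧ ∀ X Y : ℕ, X₁ ≤ X → (X : ℝ) ^ θ ≤ Y → Y ≤ X →
    ∑ n ∈ (Ioc X (X + Y)).filter (fun n : ℕ => ¬ n.Prime ∧
      ∃ q ∈ n.primeFactors, (n : ℝ) / (q : ℝ) ≤ (X : ℝ) ^ (θ / 2)), bw N₀ n ≤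
        κ * Y / (Real.log X) ^ 3

/-- T5b: pointwise bound of the weight for the other `n` -/
def T5b : Prop := ∀ θ κ : ℝ, 0 < θ → θ < 1 → 0 < κ → ∀ N₀ : ℕ, 3 ≤ N₀ → ∃ X₁ : ℕ, 3 ≤ X₁ ∧
  ∀ X n : ℕ, X₁ ≤ X → X < n → n ≤ 2 * X →
    (∀ q ∈ n.primeFactors, (X : ℝ) ^ (θ / 2) < (n : ℝ) / (q : ℝ)) → bw N₀ n ≤ κ / (Real.log X) ^ 3

/-- T5: the drift bound -/
def T5 : Prop := ∀ θ κ : ℝ, 0 < θ → θ < 1 → 0 < κ → ∃ N₁ : ℕ, 3 ≤ N₁ ∧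
  ∀ N₀ : ℕ, N₁ ≤ N₀ → ∃ X₁ : ℕ, 3 ≤ X₁ ∧ ∀ X Y : ℕ, X₁ ≤ X → (X : ℝ) ^ θ ≤ Y → Y ≤ X →
    ∑ n ∈ (Ioc X (X + Y)).filter (fun n : ℕ => ¬ n.Prime), bw N₀ n ≤ κ * Y / (Real.log X) ^ 3

/-- T6: the partial sums of a greedy function form a queue -/
def T6 : Prop := ∀ (ε : ℝ) (N₀ : ℕ) (f : ℕ → ℝ), 0 < ε → 3 ≤ N₀ → IsGreedy ε N₀ f →
  (∀ n : ℕ, 1 ≤ n → ¬ n.Prime → |S f n| ≤ |S f (n - 1)| + |f n|) ∧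
  (∀ p : ℕ, p.Prime → N₀ ≤ p → |S f p| = max (|S f (p - 1)| - Bd ε p) 0) ∧
  S f 0 = 0 ∧ f 0 = 0 ∧ f 1 = 1

/-- T7: abstract queue lemma. `P` = service times, `c` = input, `B` = service capacity. -/
def T7 : Prop := ∀ (P : ℕ → Prop) [DecidablePred P] (Q c B : ℕ → ℝ), (∀ n, 0 ≤ Q n) → (∀ n, 0 ≤ c n) →
  (∀ n, 0 ≤ B n) → ∀ X : ℕ,
  (∀ n : ℕ, X < n → ¬ P n → Q n ≤ Q (n - 1) + c n) →
  (∀ n : ℕ, X < n → P n → Q n = max (Q (n - 1) - B n) 0) → ∀ Z : ℕ, X ≤ Z →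
    (Q Z ≤ Q X + ∑ n ∈ (Ioc X Z).filter (fun n => ¬ P n), c n) ∧
    ((∀ n ∈ Ioc X Z, Q n ≠ 0) → Q Z ≤ Q X + ∑ n ∈ (Ioc X Z).filter (fun n => ¬ P n), c n -
      ∑ n ∈ (Ioc X Z).filter P, B n) ∧
    (∑ n ∈ (Ioc X Z).filter (fun n => P n ∧ Q n ≠ 0), B n ≤
      Q X + ∑ n ∈ (Ioc X Z).filter (fun n => ¬ P n), c n)

/-- T8: the long run bound. There is a threshold after which the partial sums vanish at least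
once in each interval `(z, z + X^θ + 1]`, hence are `≤ n^(θ-1+2ε)`. -/
def T8 : Prop := T2 → T5 → T6 → T7 → ∀ θ : ℝ, 0 < θ → θ < 1 → ShortIntervals θ → ∃ N₁ : ℕ, 3 ≤ N₁ ∧
  ∀ N₀ : ℕ, N₁ ≤ N₀ → ∀ ε : ℝ, 0 < ε → ε < 1 → ∀ f : ℕ → ℝ, IsGreedy ε N₀ f →
    ∃ n₀ : ℕ, ∀ n : ℕ, n₀ ≤ n → |S f n| ≤ (n : ℝ) ^ (θ - 1 + 2 * ε)

/-- T9: most primes are zeros of the partial sum. -/
def T9 : Prop := T2 → T5 → T6 → T7 → ∀ θ : ℝ, 0 < θ → θ < 1 → ShortIntervals θ → ∀ κ : ℝ, 0 < κ →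
  ∃ N₁ : ℕ, 3 ≤ N₁ ∧ ∀ N₀ : ℕ, N₁ ≤ N₀ → ∀ ε : ℝ, 0 < ε → ε < 1 → ∀ f : ℕ → ℝ, IsGreedy ε N₀ f →
    (∃ n₀ : ℕ, ∀ n : ℕ, n₀ ≤ n → |S f n| ≤ 1) →
    ∃ X₁ : ℕ, ∀ X : ℕ, X₁ ≤ X →
      (((Ioc X (2 * X)).filter (fun p => p.Prime ∧ S f p ≠ 0)).card : ℝ) ≤
        κ * ((Ioc X (2 * X)).filter Nat.Prime).card

end Pool.Agent.H932R4.MO
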