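import Mathlib
import Pool.Agent.H27.G.R_seed8.H932R4.MO.Stmts

set_option autoImplicit false

open Finset

namespace Pool.Agent.H932R4.MO.T1h956

open Pool.Agent.H932R4.MO
open Classical in
/-- one step of the recursion -/
noncomputable def step (ε : ℝ) (N₀ : ℕ) (n : ℕ) (g : (k : ℕ) → k < n → ℝ) : ℝ :=
  if Squarefree n then
    if n.Prime then
      if n < N₀ then 0 else - clip (Bd ε n) (∑ k ∈ range n, if h : k < n then g k h else 0)
    else ∏ p ∈ n.primeFactors, if h : p < n then g p h else 0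
  else 0

noncomputable def gr (ε : ℝ) (N₀ : ℕ) : ℕ → ℝ := WellFounded.fix Nat.lt_wfRel.wf (step ε N₀)

lemma gr_eq (ε : ℝ) (N₀ : ℕ) (n : ℕ) : gr ε N₀ n = step ε N₀ n fun k _ => gr ε N₀ k :=
  WellFounded.fix_eq Nat.lt_wfRel.wf (step ε N₀) n

end Pool.Agent.H932R4.MO.T1h956

namespace Pool.Agent.H932R4.MO

open T1h956 in
/-- existence of the clipped greedy function -/
theorem t1 : T1 := by
  intro ε N₀
  refine ⟨gr ε N₀, ?_, ?_, ?_, ?_⟩
  · intro n hn
    by_cases hp : n.Prime
    · rw [hp.primeFactors, prod_singleton]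
    · rw [gr_eq]
      unfold step
      rw [if_pos hn, if_neg hp]
      refine prod_congr rfl fun p hpn => ?_
      have h1 := Nat.prime_of_mem_primeFactors hpn
      have h2 : p ≤ n := Nat.le_of_mem_primeFactors hpn
      have h3 : p ≠ n := fun h => hp (h ▸ h1)
      rw [dif_pos (lt_of_le_of_ne h2 h3)]
  · intro n hn
    rw [gr_eq]
    unfold step
    rw [if_neg hn]
  · intro p hp hpN
    rw [gr_eq]
    unfold step
    rw [if_pos hp.squarefree, if_pos hp, if_pos hpN]
  · intro p hp hpN
    rw [gr_eq]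
    unfold step
    rw [if_pos hp.squarefree, if_pos hp, if_neg (not_lt.2 hpN)]
    congr 2
    refine sum_congr rfl fun k hk => ?_
    rw [dif_pos (mem_range.1 hk)]

end Pool.Agent.H932R4.MO
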