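import Pool.Agent.H27.G.R_seed8.H932R4.MO.Stmts

/-! # H932-MO task T8: the long run bound (helper471) -/

set_option autoImplicit false

open Finset Filter Topology

namespace Pool.Agent.H932R4.MO

namespace T8Aux

lemma Bd_nonneg (ε : ℝ) (x : ℝ) (hx : 0 ≤ x) : 0 ≤ Bd ε x := by
  unfold Bd
  exact div_nonneg (Real.rpow_nonneg hx _) (sq_nonneg _)

lemma Bd_lower (ε : ℝ) (h0 : 0 < ε) (h1 : ε < 1) (X p : ℝ) (hX : 3 ≤ X) (hp : X < p)
    (hp2 : p ≤ 2 * X) : X ^ (-1 + ε) / (8 * (Real.log X) ^ 2) ≤ Bd ε p := by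
  have hX0 : 0 < X := by linarith
  have hp0 : 0 < p := by linarith
  have hlX : 0 < Real.log X := Real.log_pos (by linarith)
  have hlp : 0 < Real.log p := Real.log_pos (by linarith)
  have e1 : X ^ (-1 + ε) / 2 ≤ p ^ (-1 + ε) := by
    have i1 : (2 * X) ^ (-1 + ε) ≤ p ^ (-1 + ε) :=
      Real.rpow_le_rpow_of_nonpos hp0 hp2 (by linarith)
    rw [Real.mul_rpow (by norm_num) hX0.le] at i1
    have i2 : (2 : ℝ) ^ (-1 : ℝ) ≤ 2 ^ (-1 + ε) :=
      Real.rpow_le_rpow_of_exponent_le (by norm_num) (by linarith)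
    rw [Real.rpow_neg_one] at i2
    have i3 : 0 < X ^ (-1 + ε) := Real.rpow_pos_of_pos hX0 _
    have i4 := mul_le_mul_of_nonneg_right i2 i3.le
    linarith
  have e2 : (Real.log p) ^ 2 ≤ 4 * (Real.log X) ^ 2 := by
    have i1 : Real.log p ≤ 2 * Real.log X := by
      have i2 : Real.log p ≤ Real.log (2 * X) := Real.log_le_log hp0 hp2
      rw [Real.log_mul (by norm_num) hX0.ne'] at i2
      have i3 : Real.log 2 ≤ Real.log X := Real.log_le_log (by norm_num) (by linarith)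
      linarith
    nlinarith
  unfold Bd
  have e3 : X ^ (-1 + ε) / (8 * (Real.log X) ^ 2) = (X ^ (-1 + ε) / 2) / (4 * (Real.log X) ^ 2) := by
    rw [div_div]
    congr 1
    ring
  rw [e3]
  have i3 : 0 < X ^ (-1 + ε) := Real.rpow_pos_of_pos hX0 _
  exact div_le_div₀ (Real.rpow_nonneg hp0.le _) e1 (by positivity) e2

lemma one_le_log (z : ℝ) (hz : 3 ≤ z) : 1 ≤ Real.log z := by
  rw [Real.le_log_iff_exp_le (by linarith)]
  have := Real.exp_one_lt_d9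
  linarith

lemma pow_compare (e z n : ℝ) (he : -1 ≤ e) (hz : 0 < z) (h1 : z ≤ n) (h2 : n ≤ 2 * z) :
    z ^ e / 2 ≤ n ^ e := by
  have hz' : 0 < z ^ e := Real.rpow_pos_of_pos hz _
  rcases le_or_gt 0 e with h | h
  · have := Real.rpow_le_rpow hz.le h1 h
    linarith
  · have i1 : (2 * z) ^ e ≤ n ^ e := Real.rpow_le_rpow_of_nonpos (by linarith) h2 h.le
    rw [Real.mul_rpow (by norm_num) hz.le] at i1
    have i2 : (2 : ℝ) ^ (-1 : ℝ) ≤ 2 ^ e := Real.rpow_le_rpow_of_exponent_le (by norm_num) he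
    rw [Real.rpow_neg_one] at i2
    have i4 := mul_le_mul_of_nonneg_right i2 hz'.le
    linarith

lemma rpow_le_self (θ : ℝ) (hθ : θ < 1) (X : ℕ) (hX : 1 ≤ X) : (X : ℝ) ^ θ ≤ X := by
  have h1 : (1 : ℝ) ≤ X := by exact_mod_cast hX
  calc (X : ℝ) ^ θ ≤ (X : ℝ) ^ (1 : ℝ) := Real.rpow_le_rpow_of_exponent_le h1 hθ.le
    _ = X := Real.rpow_one _

end T8Aux

open T8Aux in
theorem t8 : T8 := by
  intro hT2 hT5 hT6 hT7 θ hθ0 hθ1 hSI
  obtain ⟨c, hc, X₀, hX₀, hSI⟩ := hSI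
  obtain ⟨N₁, hN₁, h5⟩ := hT5 θ (c / 64) hθ0 hθ1 (by positivity)
  refine ⟨N₁, hN₁, fun N₀ hN₀ ε hε0 hε1 f hf => ?_⟩
  obtain ⟨X₁, hX₁, h5⟩ := h5 N₀ hN₀
  obtain ⟨h2, h2'⟩ := hT2 ε N₀ f hε0 (by omega) hf
  obtain ⟨h6a, h6b, -, -, -⟩ := hT6 ε N₀ f hε0 (by omega) hf
  set Q : ℕ → ℝ := fun n => |S f n| with hQ
  have hQ0 : ∀ n, 0 ≤ Q n := fun n => abs_nonneg _
  have h7 : ∀ X, N₀ ≤ X → ∀ Z, X ≤ Z → _ := fun X hX => hT7 Nat.Prime Q (fun n => |f n|)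
    (fun n => Bd ε n) hQ0 (fun n => abs_nonneg _) (fun n => Bd_nonneg ε n (Nat.cast_nonneg n)) X
    (fun n hn hp => h6a n (by omega) hp) (fun n hn hp => h6b n hp (by omega))
  -- the drift
  have hD : ∀ X Y : ℕ, X₁ ≤ X → (X : ℝ) ^ θ ≤ Y → Y ≤ X →
      ∑ n ∈ (Ioc X (X + Y)).filter (fun n : ℕ => ¬ n.Prime), |f n| ≤
        (X : ℝ) ^ (-1 + ε) * (c / 64 * Y / (Real.log X) ^ 3) := by
    intro X Y hX hY1 hY2
    have hX0 : (0 : ℝ) < X := by
      have : 0 < X := by omega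
      exact_mod_cast this
    refine le_trans ?_ (mul_le_mul_of_nonneg_left (h5 X Y hX hY1 hY2) (Real.rpow_nonneg hX0.le _))
    rw [mul_sum]
    refine sum_le_sum fun n hn => ?_
    rw [mem_filter, mem_Ioc] at hn
    refine (h2 n).trans ?_
    rw [mul_comm]
    refine mul_le_mul_of_nonneg_right ?_ (h2' n).1
    refine Real.rpow_le_rpow_of_nonpos hX0 ?_ (by linarith)
    exact_mod_cast hn.1.1.le
  -- the capacity
  have hCap : ∀ X Y : ℕ, X₀ ≤ X → 3 ≤ X → (X : ℝ) ^ θ ≤ Y → Y ≤ X →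
      c * Y / Real.log X * ((X : ℝ) ^ (-1 + ε) / (8 * (Real.log X) ^ 2)) ≤
        ∑ n ∈ (Ioc X (X + Y)).filter Nat.Prime, Bd ε n := by
    intro X Y hX hX3 hY1 hY2
    have hX3' : (3 : ℝ) ≤ X := by exact_mod_cast hX3
    have hlow : 0 ≤ (X : ℝ) ^ (-1 + ε) / (8 * (Real.log X) ^ 2) :=
      div_nonneg (Real.rpow_nonneg (by linarith) _) (by positivity)
    refine (mul_le_mul_of_nonneg_right (hSI X Y hX hY1 hY2) hlow).trans ?_
    rw [← nsmul_eq_mul]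
    refine card_nsmul_le_sum _ _ _ fun n hn => ?_
    rw [mem_filter, mem_Ioc] at hn
    refine Bd_lower ε hε0 hε1 X n hX3' (by exact_mod_cast hn.1.1) ?_
    have : n ≤ 2 * X := by omega
    exact_mod_cast this
  -- thresholds
  obtain ⟨M₀, hM0⟩ : ∃ M₀ : ℕ, ∀ n : ℕ, M₀ ≤ n →
      (Real.log n) ^ 3 ≤ 7 * c / 64 * (n : ℝ) ^ ε ∧ 4 * (c / 64) ≤ (n : ℝ) ^ ε := by
    have i1 := (isLittleO_log_rpow_rpow_atTop (3 : ℝ) hε0).bound
      (show (0 : ℝ) < 7 * c / 64 by positivity)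
    have i2 := (tendsto_rpow_atTop hε0).eventually_ge_atTop (4 * (c / 64))
    have i3 := tendsto_natCast_atTop_atTop.eventually
      ((i1.and i2).and (eventually_ge_atTop (1 : ℝ)))
    obtain ⟨M₀, hM⟩ := eventually_atTop.1 i3
    refine ⟨M₀, fun n hn => ?_⟩
    obtain ⟨⟨j1, j2⟩, j3⟩ := hM n hn
    refine ⟨?_, j2⟩
    rw [Real.norm_of_nonneg (Real.rpow_nonneg (Real.log_nonneg j3) _),
      Real.norm_of_nonneg (Real.rpow_nonneg (by linarith) _)] at j1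
    have e : (Real.log (n : ℝ)) ^ (3 : ℝ) = (Real.log n) ^ 3 := by
      rw [show (3 : ℝ) = ((3 : ℕ) : ℝ) by norm_num, Real.rpow_natCast]
    rw [e] at j1
    exact j1
  obtain ⟨X₂, hX₂⟩ : ∃ X₂ : ℕ, X₂ = M₀ + X₀ + X₁ + N₀ + 3 := ⟨_, rfl⟩
  -- decrease in the absence of zeros
  have hdec : ∀ X Y : ℕ, X₂ ≤ X → (X : ℝ) ^ θ ≤ Y → Y ≤ X →
      (∀ n ∈ Ioc X (X + Y), Q n ≠ 0) →
      Q (X + Y) ≤ Q X - 7 * c / 64 * ((X : ℝ) ^ (-1 + ε) * Y / (Real.log X) ^ 3) := by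
    intro X Y hX hY1 hY2 hno
    have i1 := (h7 X (by omega) (X + Y) (by omega)).2.1 hno
    have i2 := hD X Y (by omega) hY1 hY2
    have i3 := hCap X Y (by omega) (by omega) hY1 hY2
    have hlX : 1 ≤ Real.log X := one_le_log X (by exact_mod_cast (by omega : 3 ≤ X))
    have e1 : (X : ℝ) ^ (-1 + ε) * (c / 64 * Y / (Real.log X) ^ 3) =
        c / 64 * ((X : ℝ) ^ (-1 + ε) * Y / (Real.log X) ^ 3) := by ring
    have e2 : c * Y / Real.log X * ((X : ℝ) ^ (-1 + ε) / (8 * (Real.log X) ^ 2)) =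
        c / 8 * ((X : ℝ) ^ (-1 + ε) * Y / (Real.log X) ^ 3) := by
      have : Real.log (X : ℝ) ≠ 0 := by positivity
      field_simp
    rw [e1] at i2
    rw [e2] at i3
    linarith
  -- (a) there is a zero
  have ha : ∃ z, X₂ ≤ z ∧ Q z = 0 := by
    by_contra hcon
    push Not at hcon
    have hk : ∀ k : ℕ, Q (2 ^ k * X₂) ≤ Q X₂ - k := by
      intro k
      induction k with
      | zero => simp
      | succ k ih =>
        set X := 2 ^ k * X₂ with hXd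
        have hXX : X₂ ≤ X := Nat.le_mul_of_pos_left _ (by positivity)
        have i1 := hdec X X hXX (rpow_le_self θ hθ1 X (by omega)) le_rfl
          (fun n hn => hcon n (by rw [mem_Ioc] at hn; omega))
        have hX0 : (0 : ℝ) < X := by
          have : 0 < X := by omega
          exact_mod_cast this
        have e1 : (X : ℝ) ^ (-1 + ε) * X = (X : ℝ) ^ ε := by
          rw [← Real.rpow_add_one hX0.ne']
          congr 1
          ring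
        rw [e1] at i1
        have hlX : 1 ≤ Real.log X := one_le_log X (by exact_mod_cast (by omega : 3 ≤ X))
        have i2 := (hM0 X (by omega)).1
        have i3 : 1 ≤ 7 * c / 64 * ((X : ℝ) ^ ε / (Real.log X) ^ 3) := by
          rw [mul_div_assoc', le_div_iff₀ (by positivity), one_mul]
          exact i2
        have e2 : 2 ^ (k + 1) * X₂ = X + X := by rw [hXd]; ring
        rw [e2]
        push_cast
        linarith
    obtain ⟨k, hk'⟩ := exists_nat_gt (Q X₂)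
    have := hk k
    have := hQ0 (2 ^ k * X₂)
    linarith
  -- (b) the next zero
  have hb : ∀ z, X₂ ≤ z → Q z = 0 → ∃ z', z < z' ∧ z' ≤ z + ⌈(z : ℝ) ^ θ⌉₊ ∧ Q z' = 0 := by
    intro z hz hz0
    by_contra hcon
    push Not at hcon
    have hzp : (0 : ℝ) < z := by
      have : 0 < z := by omega
      exact_mod_cast this
    have hY2 : ⌈(z : ℝ) ^ θ⌉₊ ≤ z := Nat.ceil_le.2 (rpow_le_self θ hθ1 z (by omega))
    have i1 := hdec z ⌈(z : ℝ) ^ θ⌉₊ hz (Nat.le_ceil _) hY2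
      (fun n hn => hcon n (by rw [mem_Ioc] at hn; exact hn.1) (by rw [mem_Ioc] at hn; exact hn.2))
    have hYp : (0 : ℝ) < (⌈(z : ℝ) ^ θ⌉₊ : ℝ) := by
      have := Nat.ceil_pos.2 (Real.rpow_pos_of_pos hzp θ)
      exact_mod_cast this
    have hlz : 1 ≤ Real.log z := one_le_log z (by exact_mod_cast (by omega : 3 ≤ z))
    have i2 : 0 < 7 * c / 64 * ((z : ℝ) ^ (-1 + ε) * (⌈(z : ℝ) ^ θ⌉₊ : ℝ) / (Real.log z) ^ 3) := by
      have := Real.rpow_pos_of_pos hzp (-1 + ε)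
      positivity
    have i3 := hQ0 (z + ⌈(z : ℝ) ^ θ⌉₊)
    rw [hz0] at i1
    linarith
  -- (c) conclusion
  obtain ⟨z₁, hz₁, hz₁0⟩ := ha
  refine ⟨z₁, fun n hn => ?_⟩
  classical
  set Zs := (range (n + 1)).filter (fun m => Q m = 0 ∧ X₂ ≤ m) with hZs
  have hne : Zs.Nonempty := ⟨z₁, mem_filter.2 ⟨mem_range.2 (by omega), hz₁0, hz₁⟩⟩
  have hzmem := Zs.max'_mem hne
  set z := Zs.max' hne with hz
  rw [hZs, mem_filter, mem_range] at hzmem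
  obtain ⟨hzn, hz0, hzX⟩ := hzmem
  obtain ⟨z', hz'1, hz'2, hz'0⟩ := hb z hzX hz0
  have hnz' : n < z' := by
    by_contra hcon
    have : z' ∈ Zs := mem_filter.2 ⟨mem_range.2 (by omega), hz'0, by omega⟩
    have := Zs.le_max' z' this
    omega
  have hY2 : ⌈(z : ℝ) ^ θ⌉₊ ≤ z := Nat.ceil_le.2 (rpow_le_self θ hθ1 z (by omega))
  have i1 := (h7 z (by omega) n (by omega)).1
  have i2 : ∑ m ∈ (Ioc z n).filter (fun m => ¬ m.Prime), |f m| ≤
      ∑ m ∈ (Ioc z (z + ⌈(z : ℝ) ^ θ⌉₊)).filter (fun m => ¬ m.Prime), |f m| := by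
    refine sum_le_sum_of_subset_of_nonneg ?_ fun _ _ _ => abs_nonneg _
    refine filter_subset_filter _ (Ioc_subset_Ioc_right (by omega))
  have i3 := hD z ⌈(z : ℝ) ^ θ⌉₊ (by omega) (Nat.le_ceil _) hY2
  have hz3 : (3 : ℝ) ≤ z := by exact_mod_cast (by omega : 3 ≤ z)
  have hzp : (0 : ℝ) < z := by linarith
  have hlz : 1 ≤ Real.log z := one_le_log z hz3
  have i4 : ((⌈(z : ℝ) ^ θ⌉₊ : ℕ) : ℝ) ≤ 2 * (z : ℝ) ^ θ := by
    have j1 := (Nat.ceil_lt_add_one (Real.rpow_nonneg hzp.le θ)).le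
    have j2 : 1 ≤ (z : ℝ) ^ θ := Real.one_le_rpow (by linarith) hθ0.le
    linarith
  have i5 : (z : ℝ) ^ (-1 + ε) * (c / 64 * (⌈(z : ℝ) ^ θ⌉₊ : ℝ) / (Real.log z) ^ 3) ≤
      (z : ℝ) ^ (-1 + ε) * (c / 64 * (2 * (z : ℝ) ^ θ)) := by
    refine mul_le_mul_of_nonneg_left ?_ (Real.rpow_nonneg hzp.le _)
    have j1 : (1 : ℝ) ≤ (Real.log z) ^ 3 := one_le_pow₀ hlz
    rw [div_le_iff₀ (by positivity)]
    have j2 : 0 ≤ c / 64 * (2 * (z : ℝ) ^ θ) := by positivity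
    calc c / 64 * (⌈(z : ℝ) ^ θ⌉₊ : ℝ) ≤ c / 64 * (2 * (z : ℝ) ^ θ) := by gcongr
      _ = c / 64 * (2 * (z : ℝ) ^ θ) * 1 := (mul_one _).symm
      _ ≤ _ := mul_le_mul_of_nonneg_left j1 j2
  have e1 : (z : ℝ) ^ (-1 + ε) * (c / 64 * (2 * (z : ℝ) ^ θ)) =
      2 * (c / 64) * (z : ℝ) ^ (θ - 1 + ε) := by
    have : (z : ℝ) ^ (θ - 1 + ε) = (z : ℝ) ^ (-1 + ε) * (z : ℝ) ^ θ := by
      rw [← Real.rpow_add hzp]
      congr 1
      ring
    rw [this]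
    ring
  have e2 : (z : ℝ) ^ (θ - 1 + 2 * ε) = (z : ℝ) ^ (θ - 1 + ε) * (z : ℝ) ^ ε := by
    rw [← Real.rpow_add hzp]
    congr 1
    ring
  have i6 := (hM0 z (by omega)).2
  have i7 : 2 * (c / 64) * (z : ℝ) ^ (θ - 1 + ε) ≤ (z : ℝ) ^ (θ - 1 + 2 * ε) / 2 := by
    rw [e2]
    have j1 : 0 < (z : ℝ) ^ (θ - 1 + ε) := Real.rpow_pos_of_pos hzp _
    have j2 := mul_le_mul_of_nonneg_left i6 j1.le
    linarith
  have i8 : (z : ℝ) ^ (θ - 1 + 2 * ε) / 2 ≤ (n : ℝ) ^ (θ - 1 + 2 * ε) := by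
    refine pow_compare _ _ _ (by linarith) hzp ?_ ?_
    · exact_mod_cast (by omega : z ≤ n)
    · exact_mod_cast (by omega : n ≤ 2 * z)
  have i9 : Q n ≤ 0 + ∑ m ∈ (Ioc z n).filter (fun m => ¬ m.Prime), |f m| := by
    rw [← hz0]
    exact i1
  show Q n ≤ _
  linarith

end Pool.Agent.H932R4.MO
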